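import Pool.Agent.Helper729.SAF.Purity
import Pool.Agent.Helper729.SAF.Main

/-!
# An automorphism of `ℂ³` without super-attracting fixed points at infinity

The polynomial automorphism `f(x, y, z) = (y, z y² - x, z + 1)` of `ℂ³` has dynamical degrees
`λ(f) = λ(f⁻¹) = 2`, so `λ(f)² > λ(f⁻¹)`, but no projective compactification `X` of `ℂ³` has a
point of `X ∖ ℂ³` which is a super-attracting fixed point of the birational self-map of `X`
induced by `f`.  This answers the question of MP_4eb9bb_ag in the negative.
-/

set_option autoImplicit false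

open SuperAttracting in
theorem Pool.Agent.Results.MP_4eb9bb_ag.NoSuperAttracting.result :
    ∃ (f : PolyAut) (l l' : ℝ),
      HasDynamicalDegree f.f l ∧ HasDynamicalDegree f.finv l' ∧ l' < l ^ 2 ∧
      ∀ (N : ℕ) (X : ProjCompactification N) (v : Fin (N + 1) → ℂ),
        X.AtInfinity v → ¬ X.IsSuperAttracting f.f v :=
  ⟨Helper729.SAF.theAut, 2, 2, Helper729.SAF.T3.fmap_dynDegree,
    Helper729.SAF.T3.finvmap_dynDegree, by norm_num,
    fun _ X v hv => Helper729.SAF.no_superattracting Helper729.SAF.purity X v hv⟩
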